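import Pool.Agent.Q47.THR.Thr

/-!
# The pseudo-effective threshold on a toric bundle: the theorem
-/

set_option autoImplicit false

namespace Q47.THR

open Pool.Agent.W594.SYZ2 Pool.Agent.W594.SYZ2.TQ Pool.Agent.TH735.AQ MvPolynomial Q47.KN Q47.EB
open Q47.TB Q47.TK Q47.GEO Filter

variable {V : Type*} [NormedAddCommGroup V] [NormedSpace ℂ V] {Γ : Subgroup (V ≃ᵃ[ℂ] V)}
  {ι : Type*} [Fintype ι] {n : ℕ} [FiniteDimensional ℂ V]

/-- At a class where the growth is maximal the neighbouring classes are effective. -/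
theorem interior {u : ι → Fin n → ℤ} {S : Set (Set ι)} (hS : IsSmoothFan u S)
    {D : Fin 2 → ι → ℤ} {H : Fin 2 → V → V → ℂ}
    {Hc : ι → V → V → ℂ} (hH : ∀ j, IsHermitian (H j)) (hHc : ∀ i, IsHermitian (Hc i))
    {t : Fin 2 → ℝ} (hconv : Convex ℝ (P (s := 1) u D H Hc t)) {β₀ : ι → ℝ}
    (hβ₀ : β₀ ∈ P (s := 1) u D H Hc t)
    (hdim : n ≤ Module.finrank ℝ (vectorSpan ℝ (P (s := 1) u D H Hc t)))
    (hrk : Module.finrank ℂ V
      ≤ KD.rk fun v w => ∑ j, (t j : ℂ) * H j v w - ∑ i, (β₀ i : ℂ) * Hc i v w) :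
    ∃ K : ℕ, 1 ≤ K ∧ (P (s := 1) u D H Hc ![K * t 0 + 1, K * t 1]).Nonempty := by
  classical
  have hsum : IsHermitian fun v w => ∑ j, (t j : ℂ) * H j v w := by
    refine ⟨fun a v w => ?_, fun a v w => ?_, fun v w => ?_⟩
    · simp only [(hH _).add_left, mul_add, Finset.sum_add_distrib]
    · simp only [(hH _).smul_left, Finset.mul_sum]
      exact Finset.sum_congr rfl fun j _ => by ring
    · simp only [map_sum, map_mul, Complex.conj_ofReal, ← (hH _).symm]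
  have hex : ∀ i, ∃ β ∈ P (s := 1) u D H Hc t, 0 < β i := by
    intro i
    by_contra hcon
    push Not at hcon
    have h1 := finrank_lt hS (Po := P (s := 1) u D H Hc t)
      (b := fun i => ∑ j : Fin (1 + 1), t j * (D j i : ℝ)) (fun β hβ => hβ.2.1) (i := i)
      fun β hβ => le_antisymm (hcon β hβ) (hβ.1 i)
    omega
  choose γ hγ hγi using hex
  let z : Option ι → ι → ℝ := fun o => o.elim β₀ γ
  have hz : ∀ o, z o ∈ P (s := 1) u D H Hc t := by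
    rintro (_ | i)
    · exact hβ₀
    · exact hγ i
  set w : ℝ := ((Fintype.card (Option ι) : ℕ) : ℝ)⁻¹ with hw
  have hcard : (0 : ℝ) < (Fintype.card (Option ι) : ℕ) := by
    exact_mod_cast Fintype.card_pos
  have hw0 : 0 < w := inv_pos.2 hcard
  have hw1 : ∑ _o : Option ι, w = 1 := by
    rw [Finset.sum_const, Finset.card_univ, nsmul_eq_mul, hw, mul_inv_cancel₀ hcard.ne']
  have hmem : (∑ o : Option ι, w • z o) ∈ P (s := 1) u D H Hc t :=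
    hconv.sum_mem (fun _ _ => hw0.le) hw1 fun o _ => hz o
  have hap : ∀ i, (∑ o : Option ι, w • z o) i = ∑ o : Option ι, w * z o i := fun i => by
    rw [Finset.sum_apply]
    rfl
  refine nonempty_near hH hHc hmem (fun i => ?_) fun v hv => ?_
  · rw [hap]
    refine lt_of_lt_of_le (mul_pos hw0 (hγi i)) ?_
    exact Finset.single_le_sum (f := fun o : Option ι => w * z o i)
      (fun o _ => mul_nonneg hw0.le ((hz o).1 i)) (Finset.mem_univ (some i))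
  · have h1 : ∑ j, (t j : ℂ) * H j v v - ∑ i, (((∑ o : Option ι, w • z o) i : ℝ) : ℂ) * Hc i v v
        = ∑ o : Option ι, (w : ℂ) * (∑ j, (t j : ℂ) * H j v v - ∑ i, (z o i : ℂ) * Hc i v v) := by
      simp only [hap]
      rw [← Finset.mul_sum, Finset.sum_sub_distrib, mul_sub, Finset.sum_const, Finset.card_univ,
        nsmul_eq_mul, ← mul_assoc]
      have h2 : (w : ℂ) * ((Fintype.card (Option ι) : ℕ) : ℂ) = 1 := by
        rw [hw]
        push_cast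
        exact inv_mul_cancel₀ (by exact_mod_cast hcard.ne')
      rw [h2, one_mul]
      congr 1
      rw [Finset.sum_comm, Finset.mul_sum]
      refine Finset.sum_congr rfl fun i _ => ?_
      push_cast
      rw [Finset.sum_mul, Finset.mul_sum]
      exact Finset.sum_congr rfl fun o _ => by ring
    rw [h1, Complex.re_sum]
    have h3 : ∀ o, 0 ≤ (∑ j, (t j : ℂ) * H j v v - ∑ i, (z o i : ℂ) * Hc i v v).re := fun o =>
      (hz o).2.2 v
    have h4 : 0 < (∑ j, (t j : ℂ) * H j v v - ∑ i, (z none i : ℂ) * Hc i v v).re :=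
      pos_of_rk (herm_real hsum hHc β₀) hβ₀.2.2 hrk hv
    refine Finset.sum_pos' (fun o _ => ?_) ⟨none, Finset.mem_univ _, ?_⟩
    · rw [Complex.re_ofReal_mul]
      exact mul_nonneg hw0.le (h3 o)
    · rw [Complex.re_ofReal_mul]
      exact mul_pos hw0 h4

/-- The threshold. -/
theorem thr (hΓ : IsTorusQuotient Γ) {ρ : V → ℂ} (hρ : IsRamification Γ ρ)
    {u : ι → Fin n → ℤ} {S : Set (Set ι)} (hS : IsSmoothFan u S)
    {c : ι → LineBundle Γ} {Hc : ι → V → V → ℂ} (hc : ∀ i, IsChernForm (c i) (Hc i))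
    {m : ℕ} {d : Fin 2 → ι → ℤ} {F : Fin 2 → V → MvPolynomial ι ℂ}
    {L : Fin 2 → LineBundle Γ} {H : Fin 2 → V → V → ℂ}
    (hL : ∀ j, IsChernForm (L j) (H j))
    (hF : ∀ j, TB.IsLogPluricanonical u c m ρ (d j) (F j) (L j))
    (T₀ : Fin 2 → Finset (ι →₀ ℕ)) (hT : ∀ j, ∀ α ∈ T₀ j, ∃ v, coeff α (F j v) ≠ 0)
    (hw : ∀ j, ∀ a : ι → ℕ, {i | a i ≠ 0} ∈ S → ∃ α ∈ T₀ j, ∑ i, a i * α i ≤ m * ∑ i, a i)
    {D : Fin 2 → ι → ℤ} (hD : D = fun j i => d j i - m)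
    (h0 : ¬ (P (s := 1) u D H Hc ![1, 0]).Nonempty)
    (h1 : (P (s := 1) u D H Hc ![0, 1]).Nonempty) :
    ∃ p₀ q₀ : ℕ, 1 ≤ q₀ ∧
      (∀ p q : ℝ, 0 ≤ p → 0 ≤ q →
        ((P (s := 1) u D H Hc ![p, q]).Nonempty ↔ q₀ * p ≤ p₀ * q)) ∧
      ∀ β ∈ P (s := 1) u D H Hc ![p₀, q₀],
        Module.finrank ℝ (vectorSpan ℝ (P (s := 1) u D H Hc ![p₀, q₀])) +
          KD.rk (fun v w => ∑ j : Fin (1 + 1), ((![p₀, q₀] : Fin 2 → ℝ) j : ℂ) * H j v w
            - ∑ i, (β i : ℂ) * Hc i v w) < n + Module.finrank ℂ V := by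
  obtain ⟨k, T, a, g1, -, g3, -, -⟩ := geo hΓ hρ hS (s := 1) le_rfl hc hL hF T₀ hT hw hD
  have hnn : ∀ p q : ℝ, 0 ≤ p → 0 ≤ q → P (s := 1) u D H Hc ![p, q] = fib T a ![p, q] := by
    intro p q hp hq
    refine g3 _ fun j => ?_
    fin_cases j
    · exact hp
    · exact hq
  rw [hnn 1 0 zero_le_one le_rfl] at h0
  rw [hnn 0 1 le_rfl zero_le_one] at h1
  obtain ⟨p₀, q₀, hq₀, hpq⟩ := cone_two T (fun l => (g1 l).1) a h0 h1
  refine ⟨p₀, q₀, hq₀, fun p q hp hq => by rw [hnn p q hp hq]; exact hpq p q hp hq,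
    fun β hβ => ?_⟩
  by_contra hcon
  push Not at hcon
  have hfin : Module.finrank ℝ (vectorSpan ℝ (P (s := 1) u D H Hc ![p₀, q₀])) ≤ n :=
    finrank_le (b := fun i => ∑ j : Fin (1 + 1), (![p₀, q₀] : Fin 2 → ℝ) j * (D j i : ℝ))
      fun β hβ => hβ.2.1
  have hrk : KD.rk (fun v w => ∑ j : Fin (1 + 1), ((![p₀, q₀] : Fin 2 → ℝ) j : ℂ) * H j v w
      - ∑ i, (β i : ℂ) * Hc i v w) ≤ Module.finrank ℂ V := Nat.sub_le _ _
  have hconv : Convex ℝ (P (s := 1) u D H Hc ![p₀, q₀]) := by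
    rw [hnn _ _ (Nat.cast_nonneg _) (Nat.cast_nonneg _)]
    exact fib_convex T a _
  have hd1 : n ≤ Module.finrank ℝ (vectorSpan ℝ (P (s := 1) u D H Hc ![p₀, q₀])) := by omega
  have hr1 : Module.finrank ℂ V
      ≤ KD.rk (fun v w => ∑ j : Fin (1 + 1), ((![p₀, q₀] : Fin 2 → ℝ) j : ℂ) * H j v w
        - ∑ i, (β i : ℂ) * Hc i v w) := by omega
  obtain ⟨K, hK, hne⟩ := interior hS (fun j => (hL j).1) (fun i => (hc i).1) hconv hβ hd1 hr1
  have e0 : (![(p₀ : ℝ), (q₀ : ℝ)] : Fin 2 → ℝ) 0 = p₀ := rfl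
  have e1 : (![(p₀ : ℝ), (q₀ : ℝ)] : Fin 2 → ℝ) 1 = q₀ := rfl
  rw [e0, e1, hnn _ _ (by positivity) (by positivity)] at hne
  have h5 := (hpq _ _ (by positivity) (by positivity)).1 hne
  have h6 : (1 : ℝ) ≤ q₀ := by exact_mod_cast hq₀
  nlinarith

omit [FiniteDimensional ℂ V] [NormedAddCommGroup V] [NormedSpace ℂ V] in
/-- The polytope of the product. -/
theorem pol_prod (u : ι → Fin n → ℤ) (m : ℕ) (d : Fin 2 → ι → ℤ) (H : Fin 2 → V → V → ℂ)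
    (Hc : ι → V → V → ℂ) (p q : ℕ) :
    pol u (fun i => ((p * d 0 i + q * d 1 i : ℤ)) - ((m * (p + q) : ℕ) : ℤ))
      (fun v w => (p : ℂ) * H 0 v w + (q : ℂ) * H 1 v w) Hc
      = P (s := 1) u (fun j i => d j i - m) H Hc ![p, q] := by
  have e1 : ∀ f : Fin (1 + 1) → ℝ, ∑ j, f j = f 0 + f 1 := fun f => Fin.sum_univ_two f
  have e2 : ∀ f : Fin (1 + 1) → ℂ, ∑ j, f j = f 0 + f 1 := fun f => Fin.sum_univ_two f
  ext β
  have h1 : ∀ i, ((((p * d 0 i + q * d 1 i : ℤ)) - ((m * (p + q) : ℕ) : ℤ) : ℤ) : ℝ)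
      = ∑ j : Fin (1 + 1), (![(p : ℝ), (q : ℝ)] : Fin 2 → ℝ) j * ((d j i - m : ℤ) : ℝ) := by
    intro i
    rw [e1]
    change _ = (p : ℝ) * ((d 0 i - m : ℤ) : ℝ) + (q : ℝ) * ((d 1 i - m : ℤ) : ℝ)
    push_cast
    ring
  have h2 : ∀ v w, (p : ℂ) * H 0 v w + (q : ℂ) * H 1 v w
      = ∑ j : Fin (1 + 1), (((![(p : ℝ), (q : ℝ)] : Fin 2 → ℝ) j : ℝ) : ℂ) * H j v w := by
    intro v w
    rw [e2]
    change _ = (((p : ℝ)) : ℂ) * H 0 v w + (((q : ℝ)) : ℂ) * H 1 v w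
    push_cast
    rfl
  simp only [pol, P, Set.mem_ofPred_eq, h1, h2]

/-- The data of the product. -/
theorem growth_prod (hΓ : IsTorusQuotient Γ) {ρ : V → ℂ} (hρ : IsRamification Γ ρ)
    {u : ι → Fin n → ℤ} {S : Set (Set ι)} (hS : IsSmoothFan u S)
    {c : ι → LineBundle Γ} {Hc : ι → V → V → ℂ} (hc : ∀ i, IsChernForm (c i) (Hc i))
    {m : ℕ} {d : Fin 2 → ι → ℤ} {F : Fin 2 → V → MvPolynomial ι ℂ}
    {L : Fin 2 → LineBundle Γ} {H : Fin 2 → V → V → ℂ}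
    (hL : ∀ j, IsChernForm (L j) (H j))
    (hF : ∀ j, TB.IsLogPluricanonical u c m ρ (d j) (F j) (L j))
    (T₀ : Fin 2 → Finset (ι →₀ ℕ)) (hT : ∀ j, ∀ α ∈ T₀ j, ∃ v, coeff α (F j v) ≠ 0)
    (hw : ∀ j, ∀ a : ι → ℕ, {i | a i ≠ 0} ∈ S → ∃ α ∈ T₀ j, ∑ i, a i * α i ≤ m * ∑ i, a i)
    {D : Fin 2 → ι → ℤ} (hD : D = fun j i => d j i - m) (p q : ℕ) :
    (P (s := 1) u D H Hc ![p, q] = ∅ ∧
      ∀ (A : LineBundle Γ) (HA : V → V → ℂ), IsChernForm A HA → ∀ b : ι → ℤ,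
        ∃ k₀ : ℕ, ∀ k : ℕ, k₀ ≤ k →
          secY u c (fun i => k * (p * D 0 i + q * D 1 i) + b i)
            (fun γ v => ((L 0).e γ v ^ p * (L 1).e γ v ^ q) ^ k * A.e γ v) = ⊥) ∨
    ∃ β₀ ∈ P (s := 1) u D H Hc ![p, q],
      (∃ C : ℝ, 0 < C ∧ ∃ᶠ k : ℕ in atTop,
        C * (k : ℝ) ^ (Module.finrank ℝ (vectorSpan ℝ (P (s := 1) u D H Hc ![p, q])) +
          KD.rk (fun v w => ∑ j : Fin (1 + 1), ((![p, q] : Fin 2 → ℝ) j : ℂ) * H j v w
            - ∑ i, (β₀ i : ℂ) * Hc i v w))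
            ≤ Module.finrank ℂ (secY u c (fun i => k * (p * D 0 i + q * D 1 i))
              (fun γ v => ((L 0).e γ v ^ p * (L 1).e γ v ^ q) ^ k))) ∧
      (∀ (A : LineBundle Γ) (HA : V → V → ℂ), IsChernForm A HA → ∀ b : ι → ℤ,
        ∃ C : ℕ, ∀ k : ℕ, 1 ≤ k →
          FiniteDimensional ℂ (secY u c (fun i => k * (p * D 0 i + q * D 1 i) + b i)
            (fun γ v => ((L 0).e γ v ^ p * (L 1).e γ v ^ q) ^ k * A.e γ v)) ∧
          Module.finrank ℂ (secY u c (fun i => k * (p * D 0 i + q * D 1 i) + b i)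
            (fun γ v => ((L 0).e γ v ^ p * (L 1).e γ v ^ q) ^ k * A.e γ v))
            ≤ C * k ^ (Module.finrank ℝ (vectorSpan ℝ (P (s := 1) u D H Hc ![p, q])) +
              KD.rk (fun v w => ∑ j : Fin (1 + 1), ((![p, q] : Fin 2 → ℝ) j : ℂ) * H j v w
                - ∑ i, (β₀ i : ℂ) * Hc i v w))) ∧
      ∃ (N r : ℕ) (G : Fin r → V → MvPolynomial ι ℂ), 1 ≤ N ∧
        (∀ j, IsSection u c (fun i => N * (p * D 0 i + q * D 1 i))
          (fun γ v => ((L 0).e γ v ^ p * (L 1).e γ v ^ q) ^ N) (G j)) ∧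
        (∀ j, ∃ (a : ι → ℕ) (s : V → ℂ), ∀ v x, eval x (G j v) = s v * ∏ i, x i ^ a i) ∧
        ∀ (A : LineBundle Γ) (HA : V → V → ℂ), IsChernForm A HA → ∀ b : ι → ℤ, ∃ C : ℕ,
          ∀ k : ℕ, 1 ≤ k → ∀ G' : V → MvPolynomial ι ℂ,
            IsSection u c (fun i => k * (p * D 0 i + q * D 1 i) + b i)
              (fun γ v => ((L 0).e γ v ^ p * (L 1).e γ v ^ q) ^ k * A.e γ v) G' →
              ∀ K : Set (V × (ι → ℂ)), IsCompact K → ∃ C' : ℝ, ∀ z ∈ K,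
                ‖eval z.2 (G' z.1)‖ ^ N * ∏ i, ‖z.2 i‖ ^ C ≤
                  C' * (∑ j, ‖eval z.2 (G j z.1)‖) ^ k := by
  classical
  have hF' := log_prod (hF 0) (hF 1) p q
  have hL' := chern_tensor (hL 0) (chern_pow (hL 1) q) p
  obtain ⟨v₁, hv₁⟩ := weights_prod (hF 0).holo (hF 1).holo (hT 0) (hT 1) (hw 0) (hw 1) p q
  have hT' : ∀ α ∈ (F 0 v₁ ^ p * F 1 v₁ ^ q).support,
      ∃ v, coeff α ((fun v => F 0 v ^ p * F 1 v ^ q) v) ≠ 0 := fun α hα =>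
    ⟨v₁, mem_support_iff.1 hα⟩
  have hpol := pol_prod u m d H Hc p q
  have hcls : ∀ i, ((p * d 0 i + q * d 1 i : ℤ)) - ((m * (p + q) : ℕ) : ℤ)
      = p * D 0 i + q * D 1 i := by
    intro i
    rw [hD]
    push_cast
    ring
  rw [← hD] at hpol
  have hform : ∀ (β : ι → ℝ) (v w : V), (p : ℂ) * H 0 v w + (q : ℂ) * H 1 v w
      - ∑ i, (β i : ℂ) * Hc i v w
      = ∑ j : Fin (1 + 1), (((![(p : ℝ), (q : ℝ)] : Fin 2 → ℝ) j : ℝ) : ℂ) * H j v w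
        - ∑ i, (β i : ℂ) * Hc i v w := by
    intro β v w
    have e2 : ∀ f : Fin (1 + 1) → ℂ, ∑ j, f j = f 0 + f 1 := fun f => Fin.sum_univ_two f
    rw [e2]
    change _ = ((((p : ℝ)) : ℂ) * H 0 v w + (((q : ℝ)) : ℂ) * H 1 v w) - _
    push_cast
    rfl
  rcases growth_final hΓ hρ hS hc hL' hF' _ hT' hv₁ with ⟨h1, -, h3⟩ | ⟨β₀, hβ₀, -, hlow, hup⟩
  · left
    rw [hpol] at h1
    refine ⟨h1, fun A HA hA b => ?_⟩
    obtain ⟨k₀, hk₀⟩ := h3 A HA hA b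
    refine ⟨k₀, fun k hk => ?_⟩
    have h4 := hk₀ k hk
    simp only [hcls] at h4
    exact h4
  · right
    have hne : (pol u (fun i => ((p * d 0 i + q * d 1 i : ℤ)) - ((m * (p + q) : ℕ) : ℤ))
        (fun v w => (p : ℂ) * H 0 v w + (q : ℂ) * H 1 v w) Hc).Nonempty := ⟨β₀, hβ₀⟩
    obtain ⟨N, r, G, hN, hGs, hGm, -, hGb⟩ := zar hΓ hρ hS hc hL' hF' _ hT' hv₁ hne
    rw [hpol] at hβ₀ hlow hup
    simp only [hform] at hlow hup
    simp only [hcls] at hGs hGb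
    refine ⟨β₀, hβ₀, ?_, fun A HA hA b => ?_, N, r, G, hN, hGs, fun j => ?_, hGb⟩
    · obtain ⟨C, hC, hfreq⟩ := hlow
      refine ⟨C, hC, hfreq.mono fun k hk => ?_⟩
      have hs : secY u c (fun i => k * (p * D 0 i + q * D 1 i))
          (fun γ v => ((L 0).e γ v ^ p * (L 1).e γ v ^ q) ^ k)
          = secY u c (fun i => k * ((p * d 0 i + q * d 1 i : ℤ) - ((m * (p + q) : ℕ) : ℤ)))
            ((tensor ((L 0).pow p) ((L 1).pow q)).pow k).e := by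
        simp only [hcls]
        rfl
      rw [hs]
      exact hk
    · obtain ⟨C, h⟩ := hup A HA hA b
      refine ⟨C, fun k hk => ?_⟩
      have hs : secY u c (fun i => k * (p * D 0 i + q * D 1 i) + b i)
          (fun γ v => ((L 0).e γ v ^ p * (L 1).e γ v ^ q) ^ k * A.e γ v)
          = secY u c (fun i => k * ((p * d 0 i + q * d 1 i : ℤ) - ((m * (p + q) : ℕ) : ℤ)) + b i)
            (tensor ((tensor ((L 0).pow p) ((L 1).pow q)).pow k) A).e := by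
        simp only [hcls]
        rfl
      rw [hs]
      exact h k hk
    · obtain ⟨a, s, -, h⟩ := hGm j
      exact ⟨a, s, h⟩

end Q47.THR
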