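import Pool.Agent.Q47.GEO.Final
import Mathlib.RingTheory.MvPowerSeries.NoZeroDivisors

/-!
# Products of boundaries on a toric bundle
-/

set_option autoImplicit false

namespace Q47.THR

open Pool.Agent.W594.SYZ2 Pool.Agent.W594.SYZ2.TQ Pool.Agent.TH735.AQ MvPolynomial Q47.KN Q47.EB
open Q47.TB Q47.TK

variable {V : Type*} [NormedAddCommGroup V] [NormedSpace ℂ V] {Γ : Subgroup (V ≃ᵃ[ℂ] V)}
  {ι : Type*} [Fintype ι] {n : ℕ}

theorem weight_eq (a : ι → ℕ) (γ : ι →₀ ℕ) : Finsupp.weight a γ = ∑ i, a i * γ i := by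
  rw [Finsupp.weight_apply, Finsupp.sum_fintype]
  · exact Finset.sum_congr rfl fun i _ => by rw [smul_eq_mul, mul_comm]
  · intro i
    rw [zero_smul]

/-- Weights of the monomials of a product. -/
theorem wt_mul {f g : MvPolynomial ι ℂ} (a : ι → ℕ) {w w' : ℕ}
    (hf : ∃ α ∈ f.support, ∑ i, a i * α i ≤ w) (hg : ∃ α ∈ g.support, ∑ i, a i * α i ≤ w') :
    ∃ α ∈ (f * g).support, ∑ i, a i * α i ≤ w + w' := by
  obtain ⟨α, hα, h1⟩ := hf
  obtain ⟨β, hβ, h2⟩ := hg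
  have h3 : (f : MvPowerSeries ι ℂ).weightedOrder a ≤ (w : ℕ) := by
    refine (MvPowerSeries.weightedOrder_le (d := α) a ?_).trans ?_
    · rw [MvPolynomial.coeff_coe]
      exact mem_support_iff.1 hα
    · rw [weight_eq]
      exact_mod_cast h1
  have h4 : (g : MvPowerSeries ι ℂ).weightedOrder a ≤ (w' : ℕ) := by
    refine (MvPowerSeries.weightedOrder_le (d := β) a ?_).trans ?_
    · rw [MvPolynomial.coeff_coe]
      exact mem_support_iff.1 hβ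
    · rw [weight_eq]
      exact_mod_cast h2
  have h5 : ((f * g : MvPolynomial ι ℂ) : MvPowerSeries ι ℂ).weightedOrder a ≤ ((w + w' : ℕ) : ℕ∞) := by
    rw [MvPolynomial.coe_mul, MvPowerSeries.weightedOrder_mul]
    push_cast
    exact add_le_add h3 h4
  have h6 : (((f * g : MvPolynomial ι ℂ) : MvPowerSeries ι ℂ).weightedOrder a) ≠ ⊤ :=
    ne_top_of_le_ne_top (ENat.natCast_ne_top _) h5
  obtain ⟨γ, hγ, hγw⟩ := MvPowerSeries.exists_coeff_ne_zero_and_weightedOrder a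
    (ENat.natCast_toNat h6)
  refine ⟨γ, mem_support_iff.2 hγ, ?_⟩
  rw [← hγw, weight_eq] at h5
  exact_mod_cast h5

theorem wt_pow {f : MvPolynomial ι ℂ} (a : ι → ℕ) {w : ℕ}
    (hf : ∃ α ∈ f.support, ∑ i, a i * α i ≤ w) (p : ℕ) :
    ∃ α ∈ (f ^ p).support, ∑ i, a i * α i ≤ p * w := by
  induction p with
  | zero =>
    refine ⟨0, ?_, by simp⟩
    rw [pow_zero, mem_support_iff, coeff_zero_one]
    exact one_ne_zero
  | succ p ih =>
    obtain ⟨γ, h1, h2⟩ := wt_mul a ih hf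
    refine ⟨γ, by rw [pow_succ]; exact h1, h2.trans_eq (by ring)⟩

omit [Fintype ι] in
/-- Holomorphic coefficients. -/
theorem holo_mul {F G : V → MvPolynomial ι ℂ} (hF : ∀ α, Differentiable ℂ fun v => coeff α (F v))
    (hG : ∀ α, Differentiable ℂ fun v => coeff α (G v)) (α : ι →₀ ℕ) :
    Differentiable ℂ fun v => coeff α (F v * G v) := by
  classical
  simp only [coeff_mul]
  exact Differentiable.fun_sum fun p _ => (hF p.1).mul (hG p.2)

theorem holo_pow {F : V → MvPolynomial ι ℂ} (hF : ∀ α, Differentiable ℂ fun v => coeff α (F v))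
    (p : ℕ) : ∀ α, Differentiable ℂ fun v => coeff α (F v ^ p) := by
  classical
  induction p with
  | zero =>
    intro α
    simp only [pow_zero]
    exact differentiable_const _
  | succ p ih =>
    intro α
    simp only [pow_succ]
    exact holo_mul ih hF α

omit [Fintype ι] in
theorem linEquiv_add {u : ι → Fin n → ℤ} {α α' β β' : ι → ℤ} (h : LinEquiv u α β)
    (h' : LinEquiv u α' β') : LinEquiv u (fun i => α i + α' i) fun i => β i + β' i := by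
  obtain ⟨p, hp⟩ := h
  obtain ⟨q, hq⟩ := h'
  refine ⟨fun k => p k + q k, fun i => ?_⟩
  change α i + α' i = β i + β' i + _
  rw [hp i, hq i]
  simp only [add_mul, Finset.sum_add_distrib]
  ring

omit [Fintype ι] in
theorem deg_mul {u : ι → Fin n → ℤ} {f g : MvPolynomial ι ℂ} {d d' : ι → ℤ}
    (hf : ∀ α ∈ f.support, LinEquiv u (fun i => (α i : ℤ)) d)
    (hg : ∀ α ∈ g.support, LinEquiv u (fun i => (α i : ℤ)) d') :
    ∀ α ∈ (f * g).support, LinEquiv u (fun i => (α i : ℤ)) fun i => d i + d' i := by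
  classical
  intro α hα
  obtain ⟨β, hβ, γ, hγ, rfl⟩ := Finset.mem_add.1 (support_mul _ _ hα)
  have h1 := linEquiv_add (hf β hβ) (hg γ hγ)
  have e : (fun i => (((β + γ : ι →₀ ℕ) i : ℕ) : ℤ)) = fun i => (β i : ℤ) + (γ i : ℤ) := by
    funext i
    rw [Finsupp.add_apply]
    push_cast
    rfl
  rw [e]
  exact h1

theorem deg_pow {u : ι → Fin n → ℤ} {f : MvPolynomial ι ℂ} {d : ι → ℤ}
    (hf : ∀ α ∈ f.support, LinEquiv u (fun i => (α i : ℤ)) d) (p : ℕ) :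
    ∀ α ∈ (f ^ p).support, LinEquiv u (fun i => (α i : ℤ)) fun i => p * d i := by
  classical
  induction p with
  | zero =>
    intro α hα
    rw [pow_zero, mem_support_iff, coeff_one] at hα
    have h0 : (0 : ι →₀ ℕ) = α := by
      by_contra h
      rw [if_neg h] at hα
      exact hα rfl
    refine ⟨fun _ => 0, fun i => ?_⟩
    rw [← h0]
    simp
  | succ p ih =>
    intro α hα
    rw [pow_succ] at hα
    have h1 := deg_mul ih hf α hα
    have e : (fun i => ((p + 1 : ℕ) : ℤ) * d i) = fun i => (p : ℤ) * d i + d i := by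
      funext i
      push_cast
      ring
    rw [e]
    exact h1

/-- The pair with the boundary `(a Δ₀ + b Δ₁) / (a + b)`. -/
theorem log_prod {u : ι → Fin n → ℤ} {c : ι → LineBundle Γ} {m : ℕ} {ρ : V → ℂ} {d₀ d₁ : ι → ℤ}
    {F₀ F₁ : V → MvPolynomial ι ℂ} {L₀ L₁ : LineBundle Γ}
    (h₀ : TB.IsLogPluricanonical u c m ρ d₀ F₀ L₀) (h₁ : TB.IsLogPluricanonical u c m ρ d₁ F₁ L₁)
    (a b : ℕ) :
    TB.IsLogPluricanonical u c (m * (a + b)) ρ (fun i => a * d₀ i + b * d₁ i)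
      (fun v => F₀ v ^ a * F₁ v ^ b) (tensor (L₀.pow a) (L₁.pow b)) := by
  refine ⟨holo_mul (holo_pow h₀.holo a) (holo_pow h₁.holo b), fun v =>
    deg_mul (deg_pow (h₀.deg v) a) (deg_pow (h₁.deg v) b), fun γ v x => ?_⟩
  have e0 := h₀.eq γ v x
  have e1 := h₁.eq γ v x
  rw [map_mul, map_mul, map_pow, map_pow, map_pow, map_pow]
  change _ = (L₀.e γ v ^ a * L₁.e γ v ^ b) * _ * _ * _
  set A := eval (fun i => (c i).e γ v * x i) (F₀ ((γ : V ≃ᵃ[ℂ] V) v))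
  set B := eval (fun i => (c i).e γ v * x i) (F₁ ((γ : V ≃ᵃ[ℂ] V) v))
  set A' := eval x (F₀ v)
  set B' := eval x (F₁ v)
  set δ := LinearMap.det ((γ : V ≃ᵃ[ℂ] V).linear : V →ₗ[ℂ] V) * ∏ i, (c i).e γ v
  calc A ^ a * B ^ b * ρ v ^ (m * (a + b)) = (A * ρ v ^ m) ^ a * (B * ρ v ^ m) ^ b := by ring
    _ = (L₀.e γ v * δ ^ m * A' * ρ ((γ : V ≃ᵃ[ℂ] V) v) ^ m) ^ a *
        (L₁.e γ v * δ ^ m * B' * ρ ((γ : V ≃ᵃ[ℂ] V) v) ^ m) ^ b := by rw [e0, e1]
    _ = _ := by ring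

/-- The weights of the product at a general point. -/
theorem weights_prod [FiniteDimensional ℂ V] {S : Set (Set ι)} {m : ℕ}
    {F₀ F₁ : V → MvPolynomial ι ℂ} (hF₀ : ∀ α, Differentiable ℂ fun v => coeff α (F₀ v))
    (hF₁ : ∀ α, Differentiable ℂ fun v => coeff α (F₁ v))
    {T₀ T₁ : Finset (ι →₀ ℕ)} (hT₀ : ∀ α ∈ T₀, ∃ v, coeff α (F₀ v) ≠ 0)
    (hT₁ : ∀ α ∈ T₁, ∃ v, coeff α (F₁ v) ≠ 0)
    (hw₀ : ∀ a : ι → ℕ, {i | a i ≠ 0} ∈ S → ∃ α ∈ T₀, ∑ i, a i * α i ≤ m * ∑ i, a i)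
    (hw₁ : ∀ a : ι → ℕ, {i | a i ≠ 0} ∈ S → ∃ α ∈ T₁, ∑ i, a i * α i ≤ m * ∑ i, a i) (p q : ℕ) :
    ∃ v, ∀ a : ι → ℕ, {i | a i ≠ 0} ∈ S → ∃ α ∈ (F₀ v ^ p * F₁ v ^ q).support,
      ∑ i, a i * α i ≤ m * (p + q) * ∑ i, a i := by
  classical
  obtain ⟨v, hv⟩ := exists_common_prod Finset.univ
    (Sum.elim (fun (α : T₀) v => coeff α.1 (F₀ v)) (fun (α : T₁) v => coeff α.1 (F₁ v)))
    (by
      rintro (α | α) -
      · exact hF₀ _
      · exact hF₁ _) (by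
      rintro (α | α) -
      · exact hT₀ _ α.2
      · exact hT₁ _ α.2)
  rw [Finset.prod_ne_zero_iff] at hv
  refine ⟨v, fun a ha => ?_⟩
  obtain ⟨α, hα, h1⟩ := hw₀ a ha
  obtain ⟨β, hβ, h2⟩ := hw₁ a ha
  have h3 := wt_pow a ⟨α, mem_support_iff.2 (hv (Sum.inl ⟨α, hα⟩) (Finset.mem_univ _)), h1⟩ p
  have h4 := wt_pow a ⟨β, mem_support_iff.2 (hv (Sum.inr ⟨β, hβ⟩) (Finset.mem_univ _)), h2⟩ q
  obtain ⟨γ, hγ, h5⟩ := wt_mul a h3 h4
  exact ⟨γ, hγ, h5.trans_eq (by ring)⟩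

end Q47.THR
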