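import Pool.Agent.Q47.THR.Prod
import Pool.Agent.Q47.CY.Pt

/-!
# The pseudo-effective threshold on a toric bundle
-/

set_option autoImplicit false

namespace Q47.THR

open Pool.Agent.W594.SYZ2 Pool.Agent.W594.SYZ2.TQ Pool.Agent.TH735.AQ MvPolynomial Q47.KN Q47.EB
open Q47.TB Q47.TK Q47.GEO

variable {V : Type*} [NormedAddCommGroup V] [NormedSpace ℂ V] {Γ : Subgroup (V ≃ᵃ[ℂ] V)}
  {ι : Type*} [Fintype ι] {n : ℕ}

omit [Fintype ι] in
/-- The cone of the classes with a nonempty polytope. -/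
theorem cone_two {k : ℕ} (T : Fin k → Fin 2 → ℕ) (hT : ∀ l, T l ≠ 0) (a : Fin k → ι → ℕ)
    (h0 : ¬ (fib T a ![1, 0]).Nonempty) (h1 : (fib T a ![0, 1]).Nonempty) :
    ∃ p₀ q₀ : ℕ, 1 ≤ q₀ ∧ ∀ p q : ℝ, 0 ≤ p → 0 ≤ q →
      ((fib T a ![p, q]).Nonempty ↔ q₀ * p ≤ p₀ * q) := by
  classical
  obtain ⟨β₁, y, hy, hy1, hy2⟩ := h1
  have hy10 : 0 = ∑ l, y l * (T l 0 : ℝ) := hy1 0
  have hy11 : 1 = ∑ l, y l * (T l 1 : ℝ) := hy1 1
  have hne : (Finset.univ : Finset (Fin k)).Nonempty := by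
    rw [Finset.nonempty_iff_ne_empty]
    intro h
    rw [h, Finset.sum_empty] at hy11
    exact one_ne_zero hy11
  obtain ⟨l₀, -, hl₀⟩ := Finset.exists_min_image Finset.univ
    (fun l => (T l 1 : ℝ) / (T l 0 + T l 1)) hne
  have hpos : ∀ l, (0 : ℝ) < T l 0 + T l 1 := by
    intro l
    have h : 0 < T l 0 + T l 1 := by
      by_contra hcon
      apply hT l
      funext j
      fin_cases j
      · change T l 0 = 0
        omega
      · change T l 1 = 0
        omega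
    exact_mod_cast h
  have hmin : ∀ l, (T l₀ 1 : ℝ) * T l 0 ≤ T l₀ 0 * T l 1 := by
    intro l
    have h := hl₀ l (Finset.mem_univ l)
    rw [div_le_div_iff₀ (hpos l₀) (hpos l)] at h
    nlinarith
  refine ⟨T l₀ 0, T l₀ 1, ?_, fun p q hp hq => ⟨?_, fun h => ?_⟩⟩
  · by_contra hcon
    have hz : T l₀ 1 = 0 := by omega
    have h2 := hpos l₀
    rw [hz, Nat.cast_zero, add_zero] at h2
    apply h0
    refine ⟨fun i => ∑ l, (if l = l₀ then ((T l₀ 0 : ℝ))⁻¹ else 0) * (a l i : ℝ),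
      fun l => if l = l₀ then ((T l₀ 0 : ℝ))⁻¹ else 0, fun l => ?_, fun j => ?_, fun i => rfl⟩
    · beta_reduce
      split_ifs
      · positivity
      · exact le_rfl
    · simp only [ite_mul, zero_mul, Finset.sum_ite_eq', Finset.mem_univ, if_true]
      fin_cases j
      · change (1 : ℝ) = (T l₀ 0 : ℝ)⁻¹ * T l₀ 0
        rw [inv_mul_cancel₀ h2.ne']
      · change (0 : ℝ) = (T l₀ 0 : ℝ)⁻¹ * T l₀ 1
        rw [hz]
        simp
  · rintro ⟨β, x, hx, hx1, -⟩
    have e0 : p = ∑ l, x l * (T l 0 : ℝ) := hx1 0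
    have e1 : q = ∑ l, x l * (T l 1 : ℝ) := hx1 1
    rw [e0, e1, Finset.mul_sum, Finset.mul_sum]
    refine Finset.sum_le_sum fun l _ => ?_
    have h2 := mul_le_mul_of_nonneg_left (hmin l) (hx l)
    linarith
  · -- the converse
    obtain ⟨x, hx, hx0, hx1⟩ : ∃ x : Fin k → ℝ, (∀ l, 0 ≤ x l) ∧ p = ∑ l, x l * (T l 0 : ℝ) ∧
        q = ∑ l, x l * (T l 1 : ℝ) := by
      rcases Nat.eq_zero_or_pos (T l₀ 0) with hz | hz
      · have hq0 : (0 : ℝ) < T l₀ 1 := by
          have h2 := hpos l₀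
          rw [hz, Nat.cast_zero, zero_add] at h2
          exact h2
        have hp0 : p = 0 := by
          rw [hz, Nat.cast_zero, zero_mul] at h
          nlinarith
        refine ⟨fun l => q * y l, fun l => mul_nonneg hq (hy l), ?_, ?_⟩
        · simp only [mul_assoc, ← Finset.mul_sum]
          rw [← hy10, mul_zero, hp0]
        · simp only [mul_assoc, ← Finset.mul_sum]
          rw [← hy11, mul_one]
      · have ha0 : (0 : ℝ) < T l₀ 0 := by exact_mod_cast hz
        have hc0 : 0 ≤ q - p / T l₀ 0 * T l₀ 1 := by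
          rw [sub_nonneg, div_mul_eq_mul_div, div_le_iff₀ ha0]
          linarith
        refine ⟨fun l => (if l = l₀ then p / T l₀ 0 else 0) + (q - p / T l₀ 0 * T l₀ 1) * y l,
          fun l => ?_, ?_, ?_⟩
        · have h3 := mul_nonneg hc0 (hy l)
          beta_reduce
          split_ifs
          · have h4 : 0 ≤ p / T l₀ 0 := div_nonneg hp ha0.le
            linarith
          · linarith
        · simp only [add_mul, Finset.sum_add_distrib, ite_mul, zero_mul, Finset.sum_ite_eq',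
            Finset.mem_univ, if_true, mul_assoc, ← Finset.mul_sum]
          rw [← hy10]
          field_simp
          ring
        · simp only [add_mul, Finset.sum_add_distrib, ite_mul, zero_mul, Finset.sum_ite_eq',
            Finset.mem_univ, if_true, mul_assoc, ← Finset.mul_sum]
          rw [← hy11]
          ring
    refine ⟨fun i => ∑ l, x l * (a l i : ℝ), x, hx, fun j => ?_, fun i => rfl⟩
    fin_cases j
    · exact hx0
    · exact hx1

/-- The character map. -/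
def chrL (u : ι → Fin n → ℤ) : (Fin n → ℝ) →ₗ[ℝ] (ι → ℝ) where
  toFun q i := ∑ k, q k * u i k
  map_add' q q' := by
    funext i
    simp only [Pi.add_apply, add_mul, Finset.sum_add_distrib]
  map_smul' c q := by
    funext i
    simp only [Pi.smul_apply, smul_eq_mul, RingHom.id_apply, Finset.mul_sum, mul_assoc]

theorem ray_ne {u : ι → Fin n → ℤ} {S : Set (Set ι)} (hS : IsSmoothFan u S) (i : ι) :
    ∃ k, u i k ≠ 0 := by
  classical
  by_contra hcon
  push Not at hcon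
  obtain ⟨a, ha, huniq⟩ := hS.rep 0
  have h1 : (fun _ => 0 : ι → ℕ) = a := huniq _ ⟨by
    have : {j : ι | ((fun _ => 0 : ι → ℕ) j) ≠ 0} = ∅ := by
      ext j
      simp
    rw [this]
    exact hS.empty_mem, fun k => by simp⟩
  have h2 : (Pi.single i 1 : ι → ℕ) = a := huniq _ ⟨by
    have : {j : ι | (Pi.single i 1 : ι → ℕ) j ≠ 0} = {i} := by
      ext j
      by_cases hj : j = i
      · subst hj
        simp
      · simp [hj]
    rw [this]
    exact hS.ray i, fun k => by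
      rw [Finset.sum_eq_single i]
      · rw [hcon k, mul_zero]
        rfl
      · intro j _ hj
        simp [hj]
      · simp⟩
  have h3 := congrFun (h1.trans h2.symm) i
  simp at h3

omit [Fintype ι] in
theorem vectorSpan_le {u : ι → Fin n → ℤ} {Po : Set (ι → ℝ)} {b : ι → ℝ}
    (hPo : ∀ β ∈ Po, ∃ q : Fin n → ℝ, ∀ i, β i = b i + ∑ k, q k * u i k) :
    vectorSpan ℝ Po ≤ LinearMap.range (chrL u) := by
  rw [vectorSpan, Submodule.span_le]
  rintro _ ⟨β, hβ, β', hβ', rfl⟩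
  obtain ⟨q, hq⟩ := hPo β hβ
  obtain ⟨q', hq'⟩ := hPo β' hβ'
  refine ⟨q - q', ?_⟩
  funext i
  change ∑ k, (q - q') k * u i k = β i - β' i
  rw [hq i, hq' i]
  simp only [Pi.sub_apply, sub_mul, Finset.sum_sub_distrib]
  ring

omit [Fintype ι] in
theorem finrank_le {u : ι → Fin n → ℤ} {Po : Set (ι → ℝ)} {b : ι → ℝ}
    (hPo : ∀ β ∈ Po, ∃ q : Fin n → ℝ, ∀ i, β i = b i + ∑ k, q k * u i k) :
    Module.finrank ℝ (vectorSpan ℝ Po) ≤ n := by
  refine (Submodule.finrank_mono (vectorSpan_le hPo)).trans ?_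
  refine (LinearMap.finrank_range_le _).trans ?_
  rw [Module.finrank_fin_fun]

theorem finrank_lt {u : ι → Fin n → ℤ} {S : Set (Set ι)} (hS : IsSmoothFan u S)
    {Po : Set (ι → ℝ)} {b : ι → ℝ}
    (hPo : ∀ β ∈ Po, ∃ q : Fin n → ℝ, ∀ i, β i = b i + ∑ k, q k * u i k) {i : ι}
    (hi : ∀ β ∈ Po, β i = 0) :
    Module.finrank ℝ (vectorSpan ℝ Po) < n := by
  let ℓ : (Fin n → ℝ) →ₗ[ℝ] ℝ := (LinearMap.proj i) ∘ₗ chrL u
  have hle : vectorSpan ℝ Po ≤ (LinearMap.ker ℓ).map (chrL u) := by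
    rw [vectorSpan, Submodule.span_le]
    rintro _ ⟨β, hβ, β', hβ', rfl⟩
    obtain ⟨q, hq⟩ := hPo β hβ
    obtain ⟨q', hq'⟩ := hPo β' hβ'
    have h1 : ∀ j, chrL u (q - q') j = β j - β' j := by
      intro j
      change ∑ k, (q - q') k * u j k = β j - β' j
      rw [hq j, hq' j]
      simp only [Pi.sub_apply, sub_mul, Finset.sum_sub_distrib]
      ring
    refine ⟨q - q', ?_, funext h1⟩
    change chrL u (q - q') i = 0
    rw [h1, hi β hβ, hi β' hβ', sub_zero]
  have hne : LinearMap.ker ℓ ≠ ⊤ := by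
    intro htop
    obtain ⟨k, hk⟩ := ray_ne hS i
    have h1 : (Pi.single k (1 : ℝ) : Fin n → ℝ) ∈ LinearMap.ker ℓ := by
      rw [htop]
      trivial
    have h2 : ∑ l, (Pi.single k (1 : ℝ) : Fin n → ℝ) l * u i l = 0 := h1
    rw [Finset.sum_eq_single k] at h2
    · rw [Pi.single_eq_same, one_mul] at h2
      exact hk (by exact_mod_cast h2)
    · intro l _ hl
      rw [Pi.single_eq_of_ne hl, zero_mul]
    · simp
  have h1 := Submodule.finrank_lt hne
  rw [Module.finrank_fin_fun] at h1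
  exact ((Submodule.finrank_mono hle).trans (Submodule.finrank_map_le _ _)).trans_lt h1

variable [FiniteDimensional ℂ V]

/-- The form is definite if it has full rank. -/
theorem pos_of_rk {H : V → V → ℂ} (hH : IsHermitian H) (hn : IsNefForm H)
    (hr : Module.finrank ℂ V ≤ KD.rk H) {v : V} (hv : v ≠ 0) : 0 < (H v v).re := by
  rcases (hn v).eq_or_lt with h0 | h0
  · exfalso
    have h1 : ∀ w, H v w = 0 := fun w => h_isotropic hH hn v h0.symm w
    have h2 : Module.finrank ℂ (Submodule.span ℂ {v | ∀ w, H v w = 0}) = 0 := by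
      have h3 : 0 < Module.finrank ℂ V := by
        rw [Module.finrank_pos_iff]
        exact ⟨v, 0, hv⟩
      have h4 : KD.rk H = Module.finrank ℂ V
          - Module.finrank ℂ (Submodule.span ℂ {v | ∀ w, H v w = 0}) := rfl
      omega
    have h5 := Submodule.finrank_eq_zero.1 h2
    rw [Submodule.span_eq_bot] at h5
    exact hv (h5 v h1)
  · exact h0

/-- At a point where all coordinates are positive and the form is definite the polytope of the
neighbouring classes is not empty. -/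
theorem nonempty_near {u : ι → Fin n → ℤ} {D : Fin 2 → ι → ℤ} {H : Fin 2 → V → V → ℂ}
    {Hc : ι → V → V → ℂ} (hH : ∀ j, IsHermitian (H j)) (hHc : ∀ i, IsHermitian (Hc i))
    {t : Fin 2 → ℝ} {β : ι → ℝ} (hβ : β ∈ P (s := 1) u D H Hc t) (hpos : ∀ i, 0 < β i)
    (hdef : ∀ v, v ≠ 0 →
      0 < (∑ j, (t j : ℂ) * H j v v - ∑ i, (β i : ℂ) * Hc i v v).re) :
    ∃ K : ℕ, 1 ≤ K ∧ (P (s := 1) u D H Hc ![K * t 0 + 1, K * t 1]).Nonempty := by
  classical
  -- the forms
  let Q₁ : V → V → ℂ := fun v w => ∑ j, (t j : ℂ) * H j v w - ∑ i, (β i : ℂ) * Hc i v w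
  let Q₀ : V → V → ℂ := fun v w => H 0 v w - ∑ i, ((D 0 i : ℝ) : ℂ) * Hc i v w
  have hsum : ∀ t : Fin 2 → ℝ, IsHermitian fun v w => ∑ j, (t j : ℂ) * H j v w := by
    intro t
    refine ⟨fun a v w => ?_, fun a v w => ?_, fun v w => ?_⟩
    · simp only [(hH _).add_left, mul_add, Finset.sum_add_distrib]
    · simp only [(hH _).smul_left, Finset.mul_sum]
      exact Finset.sum_congr rfl fun j _ => by ring
    · simp only [map_sum, map_mul, Complex.conj_ofReal, ← (hH _).symm]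
  have hQ₁ : IsHermitian Q₁ := herm_real (hsum t) hHc β
  have hQ₀ : IsHermitian Q₀ := herm_real (hH 0) hHc fun i => (D 0 i : ℝ)
  have hn₁ : IsNefForm Q₁ := hβ.2.2
  obtain ⟨K₀, hK₀⟩ := Q47.CY.exists_pos_twist hQ₀ hQ₁ hn₁ fun v hv h =>
    absurd h (hdef v hv).ne'
  -- the coordinates
  have hco : ∀ i, ∃ K₁ : ℕ, ∀ K : ℕ, K₁ ≤ K → 0 ≤ K * β i + D 0 i := by
    intro i
    obtain ⟨K₁, hK₁⟩ := exists_nat_ge (-(D 0 i : ℝ) / β i)
    refine ⟨K₁, fun K hK => ?_⟩
    rw [div_le_iff₀ (hpos i)] at hK₁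
    have h1 : (K₁ : ℝ) * β i ≤ K * β i :=
      mul_le_mul_of_nonneg_right (by exact_mod_cast hK) (hpos i).le
    linarith
  choose K₁ hK₁ using hco
  let K : ℕ := K₀ + ∑ i, K₁ i + 1
  have hKK₀ : K₀ ≤ K := by
    simp only [K]
    omega
  have hKK₁ : ∀ i, K₁ i ≤ K := by
    intro i
    have h1 : K₁ i ≤ ∑ i, K₁ i :=
      Finset.single_le_sum (fun _ _ => Nat.zero_le _) (Finset.mem_univ i)
    simp only [K]
    omega
  refine ⟨K, by simp only [K]; omega, fun i => K * β i + D 0 i, fun i => hK₁ i K (hKK₁ i), ?_,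
    fun v => ?_⟩
  · obtain ⟨q, hq⟩ := hβ.2.1
    refine ⟨fun k => K * q k, fun i => ?_⟩
    have e1 : ∀ f : Fin (1 + 1) → ℝ, ∑ j, f j = f 0 + f 1 := fun f => Fin.sum_univ_two f
    have h1 : β i = (t 0 * D 0 i + t 1 * D 1 i) + ∑ k, q k * u i k := by
      have h1 := hq i
      rw [e1] at h1
      exact h1
    have h2 : ∑ j : Fin (1 + 1), (![K * t 0 + 1, K * t 1] : Fin 2 → ℝ) j * (D j i : ℝ)
        = (K * t 0 + 1) * D 0 i + (K * t 1) * D 1 i := e1 _
    change (K : ℝ) * β i + D 0 i = ∑ j : Fin (1 + 1),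
      (![K * t 0 + 1, K * t 1] : Fin 2 → ℝ) j * (D j i : ℝ) + ∑ k, (K * q k) * u i k
    rw [h1, h2]
    simp only [mul_assoc, ← Finset.mul_sum]
    ring
  · have e1 : ∀ f : Fin (1 + 1) → ℂ, ∑ j, f j = f 0 + f 1 := fun f => Fin.sum_univ_two f
    have h2 : ∑ j : Fin (1 + 1), (((![K * t 0 + 1, K * t 1] : Fin 2 → ℝ) j : ℝ) : ℂ) * H j v v
        - ∑ i, (((K * β i + D 0 i : ℝ)) : ℂ) * Hc i v v
        = Q₀ v v + ((K : ℝ) : ℂ) * Q₁ v v := by
      have e1' : ∀ f : Fin 2 → ℂ, ∑ j, f j = f 0 + f 1 := fun f => Fin.sum_univ_two f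
      simp only [Q₀, Q₁]
      rw [e1, e1']
      change ((K * t 0 + 1 : ℝ) : ℂ) * H 0 v v + ((K * t 1 : ℝ) : ℂ) * H 1 v v - _ = _
      push_cast
      simp only [add_mul, Finset.sum_add_distrib, mul_sub, mul_assoc, Finset.mul_sum]
      ring
    change 0 ≤ (∑ j : Fin (1 + 1), (((![K * t 0 + 1, K * t 1] : Fin 2 → ℝ) j : ℝ) : ℂ) * H j v v
        - ∑ i, (((K * β i + D 0 i : ℝ)) : ℂ) * Hc i v v).re
    rw [h2, Complex.add_re, Complex.re_ofReal_mul]
    by_cases hv : v = 0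
    · have h3 : ∀ {H' : V → V → ℂ}, IsHermitian H' → H' (0 : V) 0 = 0 := by
        intro H' hH'
        have h4 := hH'.smul_left 0 (0 : V) 0
        rwa [zero_smul, zero_mul] at h4
      rw [hv, h3 hQ₀, h3 hQ₁]
      simp
    · exact (hK₀ K hKK₀ v hv).le

end Q47.THR
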